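import Pool.Agent.Helper71.OW.GSpF
import Pool.Agent.Helper98.PF.HodgeW
import Pool.Agent.Helper98.PF.Dich

/-!
Project PF in all weights (MP_b8862a_ag): the `ℓ`-adic end in odd weight. The Tate tensors are the tensors fixed by the
Mumford-Tate group if the core statement `CoreW` holds for the Hodge numbers.
-/

set_option linter.unusedSectionVars false

open Matrix

namespace MH

variable {n : Type*} [Fintype n] [DecidableEq n]

/-- a Lie algebra with scalar commutant and a compact form is everything, by the core statement -/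
theorem OW.full_coreW [Nonempty n] {w : ℤ} {Q' Qi : Matrix n n ℂ} (hQs : Q'ᵀ = -Q') (hQ1 : Q' * Qi = 1)
    (hQ2 : Qi * Q' = 1)
    {L : Submodule ℂ (Matrix n n ℂ)} (hbr : ∀ X ∈ L, ∀ Y ∈ L, X * Y - Y * X ∈ L)
    (hcom : ∀ T : Matrix n n ℂ, (∀ X ∈ L, T * X = X * T) → ∃ c : ℂ, T = c • (1 : Matrix n n ℂ))
    (hsk : ∀ X ∈ L, Xᵀ * Q' + Q' * X = 0) {h : Matrix n n ℂ} (hh : h ∈ L) {E : ℝ → Matrix n n ℂ} {Λ : Finset ℝ}
    (hE : SD h E Λ) (hw : ∀ μ : ℝ, E μ ≠ 0 → ∃ p : ℤ, μ = ((2 * p - w : ℤ) : ℝ))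
    (hI : NI.Indec w (fun p : ℤ => (E ((2 * p - w : ℤ) : ℝ)).rank))
    (hd : ∀ d : ℕ, (∀ μ ∈ Λ, d ∣ (E μ).rank) → d = 1)
    (hcore : CoreW n w (fun p : ℤ => (E ((2 * p - w : ℤ) : ℝ)).rank))
    (hherm : ∃ B Bi : Matrix n n ℂ, B * Bi = 1 ∧ Bi * B = 1 ∧
      (cj B Bi h)ᴴ = cj B Bi h ∧ ∀ X ∈ L, cj Bi B (cj B Bi X)ᴴ ∈ L)
    {X : Matrix n n ℂ} (hX : Xᵀ * Q' + Q' * X = 0) : X ∈ L := by
  classical
  obtain ⟨B, Bi, h1, h2, h3, h4⟩ := hherm
  obtain ⟨D, Y⟩ := OW.dat_irr71 hQs hQ1 hQ2 hbr hcom hsk hh hE h1 h2 h3 h4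
  have hEE : ∀ μ, E μ * E μ = E μ := fun μ => by rw [hE.mul, if_pos rfl]
  have r1 : ∀ μ, (cj B Bi (E μ)).rank = (E μ).rank := fun μ => rank_cj h1 h2 (hEE μ)
  have hw' : ∀ μ : ℝ, cj B Bi (E μ) ≠ 0 → ∃ p : ℤ, μ = ((2 * p - w : ℤ) : ℝ) := fun μ hμ => hw μ fun h0 => hμ (by
    rw [h0, cj_zero])
  have hc : (-1 : ℂ) * (-1) = 1 := by norm_num
  have hF : (Biᵀ * Q' * Bi)ᵀ = (-1 : ℂ) • (Biᵀ * Q' * Bi) := by
    rw [neg_one_smul]
    exact Y.skew
  have hsmp : Smp (OW.LBB71 L B Bi) := by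
    refine D.smp_of_gcdW Y.left Y.right hc hF (fun x => rfl) (w := w) hw' ?_ ?_
    · simp only [r1]
      exact hI
    · intro d hdd
      apply hd
      intro μ hμ
      have := hdd μ hμ
      rwa [r1] at this
  have hx : (cj B Bi X)ᵀ * (Biᵀ * Q' * Bi) + (Biᵀ * Q' * Bi) * cj B Bi X = 0 := by
    have b1 : Bᵀ * Biᵀ = 1 := by rw [← Matrix.transpose_mul, h2, Matrix.transpose_one]
    have e1 : (cj B Bi X)ᵀ * (Biᵀ * Q' * Bi) = Biᵀ * (Xᵀ * Q') * Bi := by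
      unfold cj
      rw [Matrix.transpose_mul, Matrix.transpose_mul]
      calc Biᵀ * (Xᵀ * Bᵀ) * (Biᵀ * Q' * Bi) = Biᵀ * Xᵀ * (Bᵀ * Biᵀ) * Q' * Bi := by simp only [mul_assoc]
        _ = _ := by rw [b1, mul_one]; simp only [mul_assoc]
    have e2 : (Biᵀ * Q' * Bi) * cj B Bi X = Biᵀ * (Q' * X) * Bi := by
      unfold cj
      calc Biᵀ * Q' * Bi * (B * X * Bi) = Biᵀ * Q' * (Bi * B) * X * Bi := by simp only [mul_assoc]
        _ = _ := by rw [h2, mul_one]; simp only [mul_assoc]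
    rw [e1, e2, ← Matrix.add_mul, ← Matrix.mul_add, hX, mul_zero, zero_mul]
  have hmem : cj B Bi X ∈ OW.LBB71 L B Bi := by
    refine hcore (Biᵀ * Q' * Bi) (B * Qi * Bᵀ) (Or.inr Y.skew) Y.left Y.right (OW.LBB71 L B Bi) D.br
      (fun W hW => D.stable W hW) ?_ hsmp (cj B Bi h) (fun μ => cj B Bi (E μ)) Λ D.mem
      ⟨D.spec.mul, D.spec.sum, D.spec.eq⟩ hw' (fun p => r1 _) _ hx
    intro Z hZ
    have e1 := D.sk Z hZ
    rw [Y.tau] at e1
    have e2 : Zᵀ * (Biᵀ * Q' * Bi) = -((Biᵀ * Q' * Bi) * Z) := by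
      calc Zᵀ * (Biᵀ * Q' * Bi) = (Biᵀ * Q' * Bi) * (B * Qi * Bᵀ * Zᵀ * (Biᵀ * Q' * Bi)) := by
            have f1 := Y.left
            simp only [← mul_assoc] at f1 ⊢
            rw [f1, one_mul]
        _ = _ := by rw [e1, mul_neg]
    rw [e2, neg_add_cancel]
  rw [OW.mem_LBB71, cj_cj h2] at hmem
  exact hmem

variable {m : ℤ} {Q : Matrix n n ℚ} {S : Finset ℤ} {P R : ℤ → Matrix n n ℂ}

/-- the spectral decomposition of a combination of projections -/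
private theorem sd_fam71 (hmul : ∀ p q, R p * R q = if p = q then R p else 0) (hsum : ∑ p ∈ S, R p = 1)
    (hsupp : ∀ p, p ∉ S → R p = 0) (f : ℤ → ℝ) (hf : Function.Injective f) :
    SD (∑ p ∈ S, ((f p : ℝ) : ℂ) • R p) (fun μ : ℝ => ∑ p ∈ S.filter (fun p : ℤ => f p = μ), R p) (S.image f) ∧
    ∀ p : ℤ, (∑ q ∈ S.filter (fun q : ℤ => f q = f p), R q) = R p := by
  have heq : ∀ p : ℤ, (∑ q ∈ S.filter (fun q : ℤ => f q = f p), R q) = R p := by
    intro p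
    by_cases hp : p ∈ S
    · rw [Finset.sum_eq_single p]
      · intro q hq hqp
        exact absurd (hf (Finset.mem_filter.1 hq).2) hqp
      · intro h
        exact (h (Finset.mem_filter.2 ⟨hp, rfl⟩)).elim
    · rw [hsupp p hp]
      refine Finset.sum_eq_zero fun q hq => ?_
      have h2 : q = p := hf (Finset.mem_filter.1 hq).2
      exact absurd (h2 ▸ (Finset.mem_filter.1 hq).1) hp
  have hz : ∀ μ : ℝ, (∀ p ∈ S, f p ≠ μ) → (∑ p ∈ S.filter (fun p : ℤ => f p = μ), R p) = 0 := by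
    intro μ hμ
    rw [Finset.filter_false_of_mem hμ, Finset.sum_empty]
  refine ⟨⟨?_, ?_, ?_⟩, heq⟩
  · intro μ ν
    by_cases hμ : ∃ p ∈ S, f p = μ
    · obtain ⟨p, hp, rfl⟩ := hμ
      by_cases hν : ∃ q ∈ S, f q = ν
      · obtain ⟨q, hq, rfl⟩ := hν
        simp only [heq]
        rw [hmul]
        by_cases hpq : p = q
        · rw [if_pos hpq, if_pos (by rw [hpq])]
        · rw [if_neg hpq, if_neg (fun h => hpq (hf h))]
      · push Not at hν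
        simp only [hz ν hν, mul_zero]
        rw [if_neg (hν p hp)]
    · push Not at hμ
      simp only [hz μ hμ, zero_mul]
      split_ifs <;> rfl
  · rw [Finset.sum_image (fun p _ q _ h => hf h), ← hsum]
    exact Finset.sum_congr rfl fun p _ => heq p
  · rw [Finset.sum_image (fun p _ q _ h => hf h)]
    refine Finset.sum_congr rfl fun p _ => ?_
    rw [heq]

/-- **The `ℓ`-adic side**: all skew matrices are in the tensor Lie algebra. -/
theorem IsGalO.full_coreW {Γ : Subgroup (GL n ℂ)} (H : IsHW (2 * m + 1) Q S P) (G : IsGalO Q S P Γ R) [Nonempty n]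
    (hirr : VIrr Γ) (hd : ∀ d : ℕ, (∀ p, d ∣ (P p).rank) → d = 1)
    (hI : NI.Indec (2 * m + 1) (fun p => (P p).rank)) (hcore : CoreW n (2 * m + 1) (fun p => (P p).rank))
    {X : Matrix n n ℂ} (hX : Xᵀ * toC Q + toC Q * X = 0) : X ∈ LG Γ := by
  classical
  obtain ⟨_, _, Qi, _, _, hQ1, hQ2, _⟩ := H.exists_basis
  have hQs : (toC Q)ᵀ = -toC Q := by
    rw [H.Q_symm, neg_pow_odd71, neg_one_smul]
  obtain ⟨h1G, hhS, hSirr⟩ := G.irr_LSO H hirr hd
  have hf : Function.Injective (fun p : ℤ => ((2 * p - (2 * m + 1) : ℤ) : ℝ)) := by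
    intro p q hpq
    have h0 : ((2 * p - (2 * m + 1) : ℤ) : ℝ) = ((2 * q - (2 * m + 1) : ℤ) : ℝ) := hpq
    have h1 : (2 * p - (2 * m + 1) : ℤ) = 2 * q - (2 * m + 1) := by exact_mod_cast h0
    omega
  obtain ⟨hsd, heq⟩ := sd_fam71 G.mul G.sum (fun p hp => G.R_supp_d hp) _ hf
  have hh2 : (∑ p ∈ S, ((((2 * p - (2 * m + 1) : ℤ) : ℝ)) : ℂ) • R p) = (2 : ℂ) • OW.hm m R S := by
    unfold OW.hm
    rw [smul_sub, smul_smul, Finset.smul_sum]
    have e1 : (2 * ((m : ℂ) + 1 / 2)) • (1 : Matrix n n ℂ) = ∑ p ∈ S, (2 * ((m : ℂ) + 1 / 2)) • R p := by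
      rw [← Finset.smul_sum, G.sum]
    rw [e1, ← Finset.sum_sub_distrib]
    refine Finset.sum_congr rfl fun p _ => ?_
    rw [smul_smul, ← sub_smul]
    congr 1
    push_cast
    ring
  have hmem : (∑ p ∈ S, ((((2 * p - (2 * m + 1) : ℤ) : ℝ)) : ℂ) • R p) ∈ LSO Q Γ := by
    rw [hh2]
    exact (LSO Q Γ).smul_mem _ hhS
  have hr : (fun p : ℤ => (∑ q ∈ S.filter (fun q : ℤ => ((2 * q - (2 * m + 1) : ℤ) : ℝ) =
      ((2 * p - (2 * m + 1) : ℤ) : ℝ)), R q).rank) = fun p => (P p).rank := by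
    funext p
    rw [heq p]
    exact G.rank p
  refine (OW.full_coreW (w := 2 * m + 1) hQs hQ1 hQ2 (L := LSO Q Γ) (fun X hX Y hY => LSO_br hX hY)
    (fun T hT => schur_of_d _ hSirr hT) (fun X hX => hX.2) hmem hsd ?_ ?_ ?_ ?_
    (exists_herm (LSO Q Γ) (fun X hX Y hY => LSO_br hX hY) hSirr (fun Y hY => LSO_tr H hY) hmem hsd) hX).1
  · intro μ hμ
    by_contra hne
    push Not at hne
    apply hμ
    rw [Finset.filter_false_of_mem (fun p _ h => hne p h.symm), Finset.sum_empty]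
  · rw [hr]
    exact hI
  · intro d hdd
    apply hd
    intro p
    by_cases hp : p ∈ S
    · have h1 := hdd _ (Finset.mem_image.2 ⟨p, hp, rfl⟩)
      rw [heq, G.rank] at h1
      exact h1
    · rw [H.supp p hp, Matrix.rank_zero]
      exact dvd_zero d
  · rw [hr]
    exact hcore

section ends

variable {w : ℤ}

/-- **The Hodge side**: the Mumford-Tate group is the group of similitudes. -/
theorem IsHW.MT_coreW (H : IsHW w Q S P) (hw : Odd w) [Nonempty n]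
    (hEnd : ∀ A : Matrix n n ℚ, (∀ p, toC A * P p = P p * toC A) → ∃ c : ℚ, A = c • (1 : Matrix n n ℚ))
    (hI : NI.Indec w (fun p => (P p).rank)) (hcore : CoreW n w (fun p => (P p).rank))
    (hnum : ∀ d k : ℕ, 2 ≤ d → 2 ≤ k → Fintype.card n = d ^ k → (∀ p, d ^ (k - 1) ∣ (P p).rank) → False)
    (g : GL n ℂ) :
    g ∈ MT S P ↔ ∃ z : ℂ, (g : Matrix n n ℂ)ᵀ * toC Q * (g : Matrix n n ℂ) = z • toC Q := by
  obtain ⟨m, rfl⟩ := hw
  exact H.MT_all (fun X hX => kills_coreW H hEnd hI hcore hnum hX) g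

/-- **The `ℓ`-adic end in odd weight**, potentially absolutely irreducible representations. -/
theorem IsGalO.tate_coreW (H : IsHW w Q S P) (hw : Odd w) [Nonempty n]
    (hEnd : ∀ A : Matrix n n ℚ, (∀ p, toC A * P p = P p * toC A) → ∃ c : ℚ, A = c • (1 : Matrix n n ℚ))
    (hI : NI.Indec w (fun p => (P p).rank)) (hcore : CoreW n w (fun p => (P p).rank))
    (hnum : ∀ d k : ℕ, 2 ≤ d → 2 ≤ k → Fintype.card n = d ^ k → (∀ p, d ^ (k - 1) ∣ (P p).rank) → False)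
    (hd : ∀ d : ℕ, (∀ p, d ∣ (P p).rank) → d = 1)
    {Γ : Subgroup (GL n ℂ)} (G : IsGalO Q S P Γ R) (hirr : VIrr Γ)
    (a b : ℕ) (t : (Fin a ⊕ Fin b → n) → ℂ) :
    IsTateTensor Γ a b t ↔
      ∀ g ∈ MT S P, actF (slot a b (g : Matrix n n ℂ) ((g⁻¹ : GL n ℂ) : Matrix n n ℂ)) t = t := by
  obtain ⟨m, rfl⟩ := hw
  exact G.tate_of_full H ⟨m, rfl⟩
    (fun g z hg => (H.MT_all (fun X hX => kills_coreW H hEnd hI hcore hnum hX) g).2 ⟨z, hg⟩)
    (fun X hX => G.full_coreW H hirr hd hI hcore hX) a b t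

/-- **The `ℓ`-adic end in odd weight**, monodromy. -/
theorem IsGalO.tate_coreW_mon (H : IsHW w Q S P) (hw : Odd w) [Nonempty n]
    (hEnd : ∀ A : Matrix n n ℚ, (∀ p, toC A * P p = P p * toC A) → ∃ c : ℚ, A = c • (1 : Matrix n n ℚ))
    (hI : NI.Indec w (fun p => (P p).rank)) (hcore : CoreW n w (fun p => (P p).rank))
    (hnum : ∀ d k : ℕ, 2 ≤ d → 2 ≤ k → Fintype.card n = d ^ k → (∀ p, d ^ (k - 1) ∣ (P p).rank) → False)
    {Γ : Subgroup (GL n ℂ)} (G : IsGalO Q S P Γ R) {D : Subgroup (GL n ℚ)} (hD : IsMon Q S P D)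
    (hle : mapC D ≤ Γ) (a b : ℕ) (t : (Fin a ⊕ Fin b → n) → ℂ) :
    IsTateTensor Γ a b t ↔
      ∀ g ∈ MT S P, actF (slot a b (g : Matrix n n ℂ) ((g⁻¹ : GL n ℂ) : Matrix n n ℂ)) t = t := by
  obtain ⟨m, rfl⟩ := hw
  exact G.tate_of_mon H (fun g => H.MT_all (fun X hX => kills_coreW H hEnd hI hcore hnum hX) g) hD hle
    (fun X hX => kills_coreW H hEnd hI hcore hnum hX) a b t

/-- Semisimplicity of `Γ` and the endomorphisms (seen by the tensors of type (1,1)) give potential irreducibility. -/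
theorem potIrr_of_com {F : Type*} [Field F] {Γ : Subgroup (GL n F)} (hss : SemiS Γ)
    (hcom : ∀ Γ' : Subgroup (GL n F), Γ' ≤ Γ → Γ'.relIndex Γ ≠ 0 →
      ∀ T : Matrix n n F, (∀ g ∈ Γ', (g : Matrix n n F) * T = T * (g : Matrix n n F)) →
        ∃ c : F, T = c • (1 : Matrix n n F)) : PotIrr Γ :=
  potIrr_of_semiS hss hcom

end ends

end MH
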